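import Pool.Agent.H705.FP.Stm

/-! # Sums over zeros with random ordinates and fixed phases: from the grid to all times

(Edited from `Pool.Agent.H152.RO.T_BLK`.) -/

set_option autoImplicit false

namespace Pool.Agent.H46.FP

open MeasureTheory ProbabilityTheory Filter Topology Finset
open Pool.Agent.H705.FP

theorem T_BLU : P_BLU := by
  intro W a A K₀ p C D hp hp1 hC hD ha haC hWa hWL hgrid
  have hsC : 0 ≤ Real.sqrt C := Real.sqrt_nonneg C
  refine ⟨D + Real.sqrt C * ((2 : ℝ) ^ (1 + 2 * A) + (2 : ℝ) ^ (2 * K₀)), by positivity, ?_⟩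
  intro j k t htj htk M hM1 hM2
  have ht0 : 0 ≤ t := le_trans (by positivity) htj
  set r : ℝ := (2 : ℝ) ^ (-(p * j / 2)) with hr
  set s : ℝ := Real.sqrt ((j : ℝ) + k + 1) with hs
  have hj0 : (0 : ℝ) ≤ j := Nat.cast_nonneg j
  have hk0 : (0 : ℝ) ≤ k := Nat.cast_nonneg k
  have hr0 : 0 < r := by rw [hr]; positivity
  have hs1 : 1 ≤ s := by
    rw [hs]
    exact Real.one_le_sqrt.2 (by linarith)
  have haS : ∀ n ∈ Ico (2 ^ j) M, a n ≤ Real.sqrt C := by
    intro n hn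
    have h1 : 1 ≤ n := le_trans Nat.one_le_two_pow (Finset.mem_Ico.1 hn).1
    exact Real.le_sqrt_of_sq_le (haC n h1)
  have hcard : ((Ico (2 ^ j) M).card : ℝ) ≤ (2 : ℝ) ^ j := by
    rw [Nat.card_Ico]
    have h1 : M - 2 ^ j ≤ 2 ^ j := by
      have : 2 ^ (j + 1) = 2 ^ j + 2 ^ j := by ring
      omega
    exact_mod_cast h1
  -- powers of two
  have hpow : ∀ m : ℕ, p * j / 2 ≤ (m : ℝ) → 1 / (2 : ℝ) ^ m ≤ r := by
    intro m hm
    have h1 : (2 : ℝ) ^ (-(m : ℝ)) ≤ r := by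
      rw [hr]
      exact Real.rpow_le_rpow_of_exponent_le (by norm_num) (by linarith)
    rwa [Real.rpow_neg (by norm_num), Real.rpow_natCast, ← one_div] at h1
  have hpj : p * j / 2 ≤ (j : ℝ) := by nlinarith
  by_cases hjk : K₀ ≤ j + k
  · -- large `j + k`
    set N : ℕ := (A + 4) * j with hN
    have h2N : (0 : ℝ) < (2 : ℝ) ^ N := by positivity
    set i : ℕ := ⌊t * (2 : ℝ) ^ N⌋₊ with hi
    have hi1 : i ≤ 2 ^ (k + N) := by
      apply Nat.floor_le_of_le
      push_cast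
      rw [pow_add]
      exact mul_le_mul_of_nonneg_right htk h2N.le
    have hi2 : (i : ℝ) ≤ t * (2 : ℝ) ^ N := Nat.floor_le (by positivity)
    have hi3 : t * (2 : ℝ) ^ N < i + 1 := Nat.lt_floor_add_one _
    set t' : ℝ := (i : ℝ) / 2 ^ N with ht'
    have htt : |t - t'| ≤ 1 / (2 : ℝ) ^ N := by
      have h1 : t' ≤ t := by
        rw [ht', div_le_iff₀ h2N]
        exact hi2
      have h2 : t < t' + 1 / (2 : ℝ) ^ N := by
        rw [ht', ← add_div, lt_div_iff₀ h2N]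
        exact hi3
      rw [abs_le]
      constructor
      · have : (0 : ℝ) ≤ 1 / (2 : ℝ) ^ N := by positivity
        linarith
      · linarith
    have hi4 : 2 ^ ((2 * A + 6) * j) ≤ i := by
      rw [hi]
      refine Nat.le_floor ?_
      push_cast
      have e : (2 : ℝ) ^ ((2 * A + 6) * j) = (2 : ℝ) ^ ((A + 2) * j) * (2 : ℝ) ^ N := by
        rw [hN, ← pow_add]
        congr 1
        ring
      rw [e]
      exact mul_le_mul_of_nonneg_right htj h2N.le
    have hgr := hgrid j k hjk i M hi1 hi4 hM1 hM2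
    rw [← hN, ← ht', ← hr] at hgr
    have hdiff : |∑ n ∈ Ico (2 ^ j) M, W n t - ∑ n ∈ Ico (2 ^ j) M, W n t'| ≤
        Real.sqrt C * (2 : ℝ) ^ (1 + 2 * A) * r := by
      rw [← Finset.sum_sub_distrib]
      have h1 : ∀ n ∈ Ico (2 ^ j) M, |W n t - W n t'| ≤
          Real.sqrt C * (2 * ((2 : ℝ) ^ (j + 2)) ^ A) * (1 / (2 : ℝ) ^ N) := by
        intro n hn
        have hn2 : (n : ℝ) + 2 ≤ (2 : ℝ) ^ (j + 2) := by
          have h3 := (Finset.mem_Ico.1 hn).2
          have h4 : n + 2 ≤ 2 ^ (j + 2) := by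
            have h5 : 2 ^ (j + 2) = 2 ^ (j + 1) + 2 ^ (j + 1) := by ring
            have h6 : 2 ≤ 2 ^ (j + 1) := by
              calc 2 = 2 ^ 1 := by norm_num
                _ ≤ 2 ^ (j + 1) := Nat.pow_le_pow_right (by norm_num) (by omega)
            omega
          exact_mod_cast h4
        have hn0 : (0 : ℝ) ≤ (n : ℝ) + 2 := by positivity
        have h7 : ((n : ℝ) + 2) ^ A ≤ ((2 : ℝ) ^ (j + 2)) ^ A := pow_le_pow_left₀ hn0 hn2 A
        refine (hWL n t t').trans ?_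
        refine mul_le_mul ?_ htt (abs_nonneg _) (by positivity)
        refine mul_le_mul (haS n hn) ?_ (by positivity) hsC
        exact mul_le_mul_of_nonneg_left h7 (by norm_num)
      have h2 : |∑ n ∈ Ico (2 ^ j) M, (W n t - W n t')| ≤
          (2 : ℝ) ^ j * (Real.sqrt C * (2 * ((2 : ℝ) ^ (j + 2)) ^ A) * (1 / (2 : ℝ) ^ N)) := by
        refine (Finset.abs_sum_le_sum_abs _ _).trans ((Finset.sum_le_sum h1).trans ?_)
        rw [Finset.sum_const, nsmul_eq_mul]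
        exact mul_le_mul_of_nonneg_right hcard (by positivity)
      have h3 : (2 : ℝ) ^ j * (Real.sqrt C * (2 * ((2 : ℝ) ^ (j + 2)) ^ A) * (1 / (2 : ℝ) ^ N)) =
          Real.sqrt C * (2 : ℝ) ^ (1 + 2 * A) * (1 / (2 : ℝ) ^ (3 * j)) := by
        have h4 : (2 : ℝ) ^ N = (2 : ℝ) ^ (A * j) * (2 : ℝ) ^ (3 * j) * (2 : ℝ) ^ j := by
          rw [hN, ← pow_add, ← pow_add]
          congr 1
          ring
        have h5 : ((2 : ℝ) ^ (j + 2)) ^ A = (2 : ℝ) ^ (A * j) * (2 : ℝ) ^ (2 * A) := by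
          rw [← pow_mul, ← pow_add]
          congr 1
          ring
        rw [h4, h5, pow_add (2 : ℝ) 1 (2 * A)]
        field_simp
      refine h2.trans (h3.le.trans ?_)
      refine mul_le_mul_of_nonneg_left (hpow (3 * j) ?_) (by positivity)
      push_cast
      linarith
    have hgr2 : |∑ n ∈ Ico (2 ^ j) M, W n t'| ≤ D * r * s := by
      refine hgr.trans ?_
      refine mul_le_mul_of_nonneg_left ?_ (by positivity)
      exact Real.sqrt_le_sqrt (by linarith)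
    have htri : |∑ n ∈ Ico (2 ^ j) M, W n t| ≤
        |∑ n ∈ Ico (2 ^ j) M, W n t - ∑ n ∈ Ico (2 ^ j) M, W n t'| +
          |∑ n ∈ Ico (2 ^ j) M, W n t'| := by
      have := abs_add_le (∑ n ∈ Ico (2 ^ j) M, W n t - ∑ n ∈ Ico (2 ^ j) M, W n t')
        (∑ n ∈ Ico (2 ^ j) M, W n t')
      simpa using this
    have h8 : Real.sqrt C * (2 : ℝ) ^ (1 + 2 * A) * r ≤
        Real.sqrt C * (2 : ℝ) ^ (1 + 2 * A) * r * s :=
      le_mul_of_one_le_right (by positivity) hs1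
    have h9 : 0 ≤ Real.sqrt C * (2 : ℝ) ^ (2 * K₀) * r * s := by positivity
    nlinarith [hdiff, hgr2, htri, h8, h9]
  · -- small `j + k`
    have hj : j ≤ K₀ := by omega
    have h1 : |∑ n ∈ Ico (2 ^ j) M, W n t| ≤ (2 : ℝ) ^ j * Real.sqrt C := by
      refine (Finset.abs_sum_le_sum_abs _ _).trans ?_
      refine (Finset.sum_le_sum (fun n hn => (hWa n t).trans (haS n hn))).trans ?_
      rw [Finset.sum_const, nsmul_eq_mul]
      exact mul_le_mul_of_nonneg_right hcard hsC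
    have h2 : 1 / (2 : ℝ) ^ K₀ ≤ r := by
      apply hpow
      have : (j : ℝ) ≤ K₀ := by exact_mod_cast hj
      linarith
    have h3 : (2 : ℝ) ^ j ≤ (2 : ℝ) ^ K₀ := pow_le_pow_right₀ (by norm_num) hj
    have h4 : (2 : ℝ) ^ j ≤ (2 : ℝ) ^ (2 * K₀) * r := by
      refine h3.trans ?_
      have h5 : (2 : ℝ) ^ K₀ = (2 : ℝ) ^ (2 * K₀) * (1 / (2 : ℝ) ^ K₀) := by
        rw [two_mul, pow_add]
        field_simp
      calc (2 : ℝ) ^ K₀ = (2 : ℝ) ^ (2 * K₀) * (1 / (2 : ℝ) ^ K₀) := h5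
        _ ≤ (2 : ℝ) ^ (2 * K₀) * r := mul_le_mul_of_nonneg_left h2 (by positivity)
    have h5 : (2 : ℝ) ^ j * Real.sqrt C ≤ (2 : ℝ) ^ (2 * K₀) * r * Real.sqrt C :=
      mul_le_mul_of_nonneg_right h4 hsC
    have h6 : (2 : ℝ) ^ (2 * K₀) * r * Real.sqrt C ≤ (2 : ℝ) ^ (2 * K₀) * r * Real.sqrt C * s :=
      le_mul_of_one_le_right (by positivity) hs1
    have h7 : 0 ≤ D * r * s := by positivity
    have h8 : 0 ≤ Real.sqrt C * (2 : ℝ) ^ (1 + 2 * A) * r * s := by positivity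
    calc |∑ n ∈ Ico (2 ^ j) M, W n t| ≤ (2 : ℝ) ^ (2 * K₀) * r * Real.sqrt C * s :=
          h1.trans (h5.trans h6)
      _ ≤ D * r * s + Real.sqrt C * (2 : ℝ) ^ (1 + 2 * A) * r * s +
          (2 : ℝ) ^ (2 * K₀) * r * Real.sqrt C * s := by linarith
      _ = (D + Real.sqrt C * ((2 : ℝ) ^ (1 + 2 * A) + (2 : ℝ) ^ (2 * K₀))) * r * s := by ring

end Pool.Agent.H46.FP
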